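import Pool.Agent.H466.HP.Stm
import Pool.Graph.R_seed8.W186.LH.Fac

/-!
# HP-MONO: monotonicity of `|ξ|` on horizontal segments (subtask 3915 of helper466)
-/

set_option autoImplicit false

namespace Pool.Agent.H333.HP

open Complex Filter Topology Set
open scoped ComplexConjugate
open Pool.Agent.NH13.UV (Gr)

/-- an entire function has finitely many zeros in a compact set -/
theorem fin_zeros {Y : ℂ → ℂ} (hY : Differentiable ℂ Y) (hne : ∃ u, Y u ≠ 0) {K : Set ℂ}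
    (hK : IsCompact K) : {b : ℂ | b ∈ K ∧ Y b = 0}.Finite := by
  by_contra hinf
  have hinf : {b : ℂ | b ∈ K ∧ Y b = 0}.Infinite := hinf
  obtain ⟨x, hx, hacc⟩ := hinf.exists_accPt_of_subset_isCompact hK (fun b hb => hb.1)
  have hfreq : ∃ᶠ z in 𝓝[≠] x, Y z = 0 := by
    rw [accPt_iff_frequently_nhdsNE] at hacc
    exact hacc.mono fun z hz => hz.2
  have hz := AnalyticOnNhd.eqOn_zero_of_preconnected_of_frequently_eq_zero
    (f := Y) (U := univ) (fun s _ => hY.analyticAt s) isPreconnected_univ (mem_univ x) hfreq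
  obtain ⟨u, hu⟩ := hne
  exact hu (hz (mem_univ u))

theorem neg_conj_neg_conj (b : ℂ) : -(conj (-(conj b))) = b := by
  rw [map_neg, Complex.conj_conj, neg_neg]

theorem re_nc (b : ℂ) : (-(conj b)).re = -b.re := by simp

theorem im_nc (b : ℂ) : (-(conj b)).im = b.im := by simp

theorem nsq (s y : ℝ) (b : ℂ) :
    ‖((s : ℂ) + I * y) - b‖ ^ 2 = (s - b.re) ^ 2 + (b.im - y) ^ 2 := by
  rw [← Complex.normSq_eq_norm_sq, Complex.normSq_apply]
  simp
  ring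

/-- pairs of zeros -/
theorem pair_mono {x X y : ℝ} (hx : 0 ≤ x) (hX : x ≤ X) (b : ℂ)
    (h : 2 * b.re ^ 2 ≤ X ^ 2 + 2 * (b.im - y) ^ 2) :
    ‖((x : ℂ) + I * y) - b‖ * ‖((x : ℂ) + I * y) - (-(conj b))‖ ≤
      ‖((X : ℂ) + I * y) - b‖ * ‖((X : ℂ) + I * y) - (-(conj b))‖ := by
  rw [← pow_le_pow_iff_left₀ (by positivity) (by positivity) two_ne_zero, mul_pow, mul_pow,
    nsq, nsq, nsq, nsq, re_nc, im_nc]
  have h1 : 0 ≤ X ^ 2 - x ^ 2 := by nlinarith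
  have h2 : 0 ≤ X ^ 2 + x ^ 2 + 2 * (b.im - y) ^ 2 - 2 * b.re ^ 2 := by nlinarith
  nlinarith [mul_nonneg h1 h2]

theorem prod_sym (B : Finset ℂ) (hB : ∀ b ∈ B, -(conj b) ∈ B) (f : ℂ → ℝ) :
    ∏ b ∈ B, f (-(conj b)) = ∏ b ∈ B, f b :=
  Finset.prod_nbij' (fun b => -(conj b)) (fun b => -(conj b)) hB hB
    (fun b _ => neg_conj_neg_conj b) (fun b _ => neg_conj_neg_conj b) (fun _ _ => rfl)

theorem sum_sym (B : Finset ℂ) (hB : ∀ b ∈ B, -(conj b) ∈ B) (f : ℂ → ℝ) :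
    ∑ b ∈ B, f (-(conj b)) = ∑ b ∈ B, f b :=
  Finset.sum_nbij' (fun b => -(conj b)) (fun b => -(conj b)) hB hB
    (fun b _ => neg_conj_neg_conj b) (fun b _ => neg_conj_neg_conj b) (fun _ _ => rfl)

/-- the polynomial part -/
theorem poly_mono (B : Finset ℂ) (hB : ∀ b ∈ B, -(conj b) ∈ B) (m : ℂ → ℕ)
    (hm : ∀ b ∈ B, m (-(conj b)) = m b) {x X y : ℝ} (hx : 0 ≤ x) (hX : x ≤ X)
    (h : ∀ b ∈ B, 2 * b.re ^ 2 ≤ X ^ 2 + 2 * (b.im - y) ^ 2) :
    ‖∏ b ∈ B, (((x : ℂ) + I * y) - b) ^ m b‖ ≤ ‖∏ b ∈ B, (((X : ℂ) + I * y) - b) ^ m b‖ := by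
  have key : ∀ s : ℝ, ‖∏ b ∈ B, (((s : ℂ) + I * y) - b) ^ m b‖ ^ 2 =
      ∏ b ∈ B, (‖((s : ℂ) + I * y) - b‖ * ‖((s : ℂ) + I * y) - (-(conj b))‖) ^ m b := by
    intro s
    have h1 : ‖∏ b ∈ B, (((s : ℂ) + I * y) - b) ^ m b‖ =
        ∏ b ∈ B, ‖((s : ℂ) + I * y) - b‖ ^ m b := by
      rw [norm_prod]
      exact Finset.prod_congr rfl fun b _ => norm_pow _ _
    have h2 := prod_sym B hB (fun b => ‖((s : ℂ) + I * y) - b‖ ^ m b)
    rw [pow_two, h1]
    nth_rewrite 2 [← h2]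
    rw [← Finset.prod_mul_distrib]
    refine Finset.prod_congr rfl fun b hb => ?_
    rw [hm b hb, mul_pow]
  rw [← pow_le_pow_iff_left₀ (norm_nonneg _) (norm_nonneg _) two_ne_zero, key, key]
  refine Finset.prod_le_prod (fun b _ => by positivity) fun b hb => ?_
  exact pow_le_pow_left₀ (by positivity) (pair_mono hx hX b (h b hb)) _

theorem ld_pow (b z : ℂ) (m : ℕ) : logDeriv (fun u : ℂ => (u - b) ^ m) z = m * (1 / (z - b)) := by
  rw [logDeriv_fun_pow (by fun_prop), logDeriv_apply]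
  congr 2
  rw [deriv_sub_const, deriv_id'']

/-- logarithmic derivatives of the factorisation -/
theorem ld_fac (B : Finset ℂ) (m : ℂ → ℕ) {Y g : ℂ → ℂ} (hg : Differentiable ℂ g)
    (hYg : ∀ u, Y u = (∏ b ∈ B, (u - b) ^ m b) * g u) {z : ℂ} (hz : z ∉ B) (hgz : g z ≠ 0) :
    logDeriv Y z = ∑ b ∈ B, (m b : ℂ) * (1 / (z - b)) + logDeriv g z := by
  have hne : ∀ b ∈ B, (z - b) ^ m b ≠ 0 := fun b hb => pow_ne_zero _ (by
    rw [sub_ne_zero]
    rintro rfl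
    exact hz hb)
  have h1 : Y = fun u => (∏ b ∈ B, (u - b) ^ m b) * g u := funext hYg
  rw [h1, logDeriv_mul z (Finset.prod_ne_zero_iff.2 hne) hgz (by fun_prop) (hg z),
    logDeriv_prod (f := fun b u => (u - b) ^ m b) hne (fun b _ => by fun_prop)]
  congr 1
  exact Finset.sum_congr rfl fun b _ => ld_pow b z (m b)

/-- real parts -/
theorem re_inv (s y : ℝ) (b : ℂ) : (1 / (((s : ℂ) + I * y) - b)).re =
    (s - b.re) / ((s - b.re) ^ 2 + (b.im - y) ^ 2) := by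
  rw [one_div, Complex.inv_re, Complex.normSq_eq_norm_sq, nsq]
  simp

theorem re_inv' (s y : ℝ) (b : ℂ) : (1 / (-(conj ((s : ℂ) + I * y)) - b)).re =
    -((s + b.re) / ((s + b.re) ^ 2 + (b.im - y) ^ 2)) := by
  have e : -(conj ((s : ℂ) + I * y)) = (((-s : ℝ) : ℂ) + I * y) := by
    apply Complex.ext <;> simp
  rw [e, re_inv]
  have e2 : (-s - b.re) ^ 2 = (s + b.re) ^ 2 := by ring
  rw [e2]
  ring

/-- the terms of the distant zeros are nonnegative -/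
theorem term_nonneg {s β η : ℝ} (hs : 0 ≤ s) (hη : 1 ≤ |η|) (hβ : |β| ≤ 1 / 2) :
    0 ≤ (s - β) / ((s - β) ^ 2 + η ^ 2) + (s + β) / ((s + β) ^ 2 + η ^ 2) := by
  have hη2 : 1 ≤ η ^ 2 := by
    rw [← sq_abs]
    nlinarith
  have hβ2 : β ^ 2 ≤ 1 / 4 := by
    rw [← sq_abs]
    have := abs_nonneg β
    nlinarith
  have h1 : 0 < (s - β) ^ 2 + η ^ 2 := by nlinarith [sq_nonneg (s - β)]
  have h2 : 0 < (s + β) ^ 2 + η ^ 2 := by nlinarith [sq_nonneg (s + β)]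
  rw [div_add_div _ _ h1.ne' h2.ne']
  refine div_nonneg ?_ (mul_pos h1 h2).le
  have e : (s - β) * ((s + β) ^ 2 + η ^ 2) + ((s - β) ^ 2 + η ^ 2) * (s + β) =
      2 * s * (s ^ 2 + (η ^ 2 - β ^ 2)) := by ring
  rw [e]
  have : 0 ≤ s ^ 2 + (η ^ 2 - β ^ 2) := by nlinarith [sq_nonneg s]
  positivity

/-- the real part of the logarithmic derivative of the cofactor -/
theorem re_ld {Y : ℂ → ℂ} (hY : Differentiable ℂ Y) (hsym : ∀ z, Y (-(conj z)) = conj (Y z))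
    (hgr : Gr Y) (hst : ∀ s, Y s = 0 → |s.re| ≤ 1 / 2) {s y : ℝ} (B : Finset ℂ)
    (hB : ∀ b, b ∈ B ↔ Y b = 0 ∧ |b.im - y| ≤ 1) {g : ℂ → ℂ} (hg : Differentiable ℂ g)
    (hYg : ∀ u, Y u = (∏ b ∈ B, (u - b) ^ (analyticOrderNatAt Y b)) * g u)
    (hs : 0 ≤ s) (hz : ((s : ℂ) + I * y) ∉ B) : 0 ≤ (logDeriv g ((s : ℂ) + I * y)).re := by
  classical
  obtain ⟨z, hzd⟩ : ∃ z : ℂ, z = (s : ℂ) + I * y := ⟨_, rfl⟩
  rw [← hzd] at hz ⊢
  have hzim : z.im = y := by rw [hzd]; simp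
  have hYz : Y z ≠ 0 := by
    intro h0
    apply hz
    rw [hB, hzim, sub_self, abs_zero]
    exact ⟨h0, by norm_num⟩
  have hgz : g z ≠ 0 := by
    intro h0
    apply hYz
    rw [hYg, h0, mul_zero]
  have hYw : Y (-(conj z)) ≠ 0 := by
    rw [hsym]
    exact (map_ne_zero_iff _ (starRingEnd ℂ).injective).2 hYz
  have h1 := Pool.Agent.H862.VP.t_PFC Y hY hsym hgr hst z (-(conj z)) hYz hYw
  have h2 := Complex.reCLM.hasSum h1
  obtain ⟨φ, hφ⟩ : ∃ φ : ℂ → ℝ, φ = fun b => (s - b.re) / ((s - b.re) ^ 2 + (b.im - y) ^ 2) :=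
    ⟨_, rfl⟩
  have hφ' : ∀ b : ℂ, φ (-(conj b)) = (s + b.re) / ((s + b.re) ^ 2 + (b.im - y) ^ 2) := by
    intro b
    rw [hφ]
    simp only
    rw [re_nc, im_nc, sub_neg_eq_add]
  have hre : ∀ b : ℂ, (1 / (z - b)).re = φ b := by
    intro b
    rw [hzd, re_inv, hφ]
  have hre' : ∀ b : ℂ, (1 / (-(conj z) - b)).re = -φ (-(conj b)) := by
    intro b
    rw [hφ', hzd, re_inv']
  have h3 : HasSum (fun a : {a : ℂ // Y a = 0} =>
      (analyticOrderNatAt Y (a : ℂ) : ℝ) * (φ a + φ (-(conj (a : ℂ)))))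
      (2 * (logDeriv Y z).re) := by
    have e : Complex.reCLM (logDeriv Y z - logDeriv Y (-(conj z))) = 2 * (logDeriv Y z).re := by
      rw [Pool.Agent.NH13.UV.yh.logDeriv_rf hY hsym z, Complex.reCLM_apply, Complex.sub_re,
        Complex.neg_re, Complex.conj_re]
      ring
    rw [e] at h2
    refine h2.congr_fun fun a => ?_
    rw [Complex.reCLM_apply]
    have h9 : ((analyticOrderNatAt Y (a : ℂ) : ℕ) : ℂ) =
        (((analyticOrderNatAt Y (a : ℂ) : ℕ) : ℝ) : ℂ) := by push_cast; rfl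
    rw [h9, Complex.re_ofReal_mul, Complex.sub_re, hre, hre', sub_neg_eq_add]
  have h4 := sum_le_hasSum (B.subtype fun a => Y a = 0) (fun a ha => by
    have ha' : (a : ℂ) ∉ B := by
      intro h'
      exact ha (Finset.mem_subtype.2 h')
    have hη : 1 ≤ |(a : ℂ).im - y| := by
      by_contra hcon
      exact ha' ((hB _).2 ⟨a.2, (not_le.1 hcon).le⟩)
    rw [hφ']
    refine mul_nonneg (Nat.cast_nonneg _) ?_
    rw [hφ]
    exact term_nonneg hs hη (hst _ a.2)) h3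
  rw [Finset.sum_subtype_of_mem (fun a : ℂ => (analyticOrderNatAt Y a : ℝ) *
    (φ a + φ (-(conj a)))) (fun a ha => ((hB a).1 ha).1)] at h4
  have hBs : ∀ b ∈ B, -(conj b) ∈ B := by
    intro b hb
    rw [hB] at hb ⊢
    rw [im_nc, hsym, hb.1, map_zero]
    exact ⟨rfl, hb.2⟩
  have hord : ∀ b : ℂ, analyticOrderNatAt Y (-(conj b)) = analyticOrderNatAt Y b := by
    intro b
    unfold analyticOrderNatAt
    rw [Pool.Agent.NH13.UV.yh.order_rf hY hsym b]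
  have h5 : ∑ a ∈ B, (analyticOrderNatAt Y a : ℝ) * (φ a + φ (-(conj a))) =
      2 * ∑ a ∈ B, (analyticOrderNatAt Y a : ℝ) * φ a := by
    have h6 := sum_sym B hBs (fun a => (analyticOrderNatAt Y a : ℝ) * φ a)
    have h7 : ∑ a ∈ B, (analyticOrderNatAt Y a : ℝ) * φ (-(conj a)) =
        ∑ a ∈ B, (analyticOrderNatAt Y a : ℝ) * φ a := by
      rw [← h6]
      refine Finset.sum_congr rfl fun a _ => ?_
      rw [hord]
    simp only [mul_add, Finset.sum_add_distrib]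
    rw [h7]
    ring
  have h8 := ld_fac B (analyticOrderNatAt Y) hg hYg hz hgz
  have h9 : (logDeriv Y z).re = ∑ a ∈ B, (analyticOrderNatAt Y a : ℝ) * φ a +
      (logDeriv g z).re := by
    rw [h8, Complex.add_re, Complex.re_sum]
    congr 1
    refine Finset.sum_congr rfl fun a _ => ?_
    have h9 : ((analyticOrderNatAt Y (a : ℂ) : ℕ) : ℂ) =
        (((analyticOrderNatAt Y (a : ℂ) : ℕ) : ℝ) : ℂ) := by push_cast; rfl
    rw [h9, Complex.re_ofReal_mul, hre]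
  rw [h5, h9] at h4
  linarith

/-- monotonicity of the cofactor -/
theorem g_mono {g : ℂ → ℂ} (hg : Differentiable ℂ g) (y : ℝ) (B : Finset ℂ)
    (hgne : ∀ s : ℝ, g ((s : ℂ) + I * y) ≠ 0)
    (h : ∀ s : ℝ, 0 ≤ s → ((s : ℂ) + I * y) ∉ B → 0 ≤ (logDeriv g ((s : ℂ) + I * y)).re)
    {x X : ℝ} (hx : 0 ≤ x) (hX : x ≤ X) :
    ‖g ((x : ℂ) + I * y)‖ ≤ ‖g ((X : ℂ) + I * y)‖ := by
  have hder : ∀ s : ℝ, HasDerivAt (fun s : ℝ => ‖g ((s : ℂ) + I * y)‖ ^ 2)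
      (2 * inner ℝ (g ((s : ℂ) + I * y)) (deriv g ((s : ℂ) + I * y))) s := by
    intro s
    have h1 : HasDerivAt (fun s : ℝ => g ((s : ℂ) + I * y)) (deriv g ((s : ℂ) + I * y)) s :=
      ((hg _).hasDerivAt.comp_add_const (s : ℂ) (I * y)).comp_ofReal
    exact h1.norm_sq
  have hcd : Continuous (deriv g) := (hg.contDiff (n := 1)).continuous_deriv le_rfl
  have hDc : Continuous (fun s : ℝ =>
      2 * inner ℝ (g ((s : ℂ) + I * y)) (deriv g ((s : ℂ) + I * y))) := by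
    have h1 : Continuous (fun s : ℝ => (s : ℂ) + I * y) := by fun_prop
    exact continuous_const.mul ((hg.continuous.comp h1).inner (hcd.comp h1))
  have hgood : ∀ s : ℝ, 0 ≤ s → ((s : ℂ) + I * y) ∉ B →
      0 ≤ 2 * inner ℝ (g ((s : ℂ) + I * y)) (deriv g ((s : ℂ) + I * y)) := by
    intro s hs hsB
    have h1 := h s hs hsB
    rw [logDeriv_apply, Complex.div_re] at h1
    rw [Complex.inner]
    have h2 : 0 < Complex.normSq (g ((s : ℂ) + I * y)) := Complex.normSq_pos.2 (hgne s)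
    have h3 : (deriv g ((s : ℂ) + I * y) * (starRingEnd ℂ) (g ((s : ℂ) + I * y))).re =
        Complex.normSq (g ((s : ℂ) + I * y)) * ((deriv g ((s : ℂ) + I * y)).re *
          (g ((s : ℂ) + I * y)).re / Complex.normSq (g ((s : ℂ) + I * y)) +
          (deriv g ((s : ℂ) + I * y)).im * (g ((s : ℂ) + I * y)).im /
            Complex.normSq (g ((s : ℂ) + I * y))) := by
      rw [Complex.mul_re, Complex.conj_re, Complex.conj_im]
      field_simp
      ring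
    rw [h3]
    have := mul_nonneg h2.le h1
    linarith
  have hall : ∀ s : ℝ, 0 < s →
      0 ≤ 2 * inner ℝ (g ((s : ℂ) + I * y)) (deriv g ((s : ℂ) + I * y)) := by
    intro s hs
    have ht : Tendsto (fun s : ℝ => 2 * inner ℝ (g ((s : ℂ) + I * y))
        (deriv g ((s : ℂ) + I * y))) (𝓝[≠] s)
        (𝓝 (2 * inner ℝ (g ((s : ℂ) + I * y)) (deriv g ((s : ℂ) + I * y)))) :=
      (hDc.tendsto s).mono_left nhdsWithin_le_nhds
    refine ge_of_tendsto ht ?_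
    have hfin : {s : ℝ | ((s : ℂ) + I * y) ∈ B}.Finite := by
      refine Set.Finite.preimage (f := fun s : ℝ => (s : ℂ) + I * y) ?_ B.finite_toSet
      intro a _ b _ hab
      have h1 := add_right_cancel hab
      exact_mod_cast h1
    have h1 : ∀ᶠ s' in 𝓝[≠] s, s' ∈ {s : ℝ | ((s : ℂ) + I * y) ∈ B}ᶜ :=
      nhdsNE_le_cofinite s hfin.compl_mem_cofinite
    have h2 : ∀ᶠ s' in 𝓝[≠] s, 0 < s' := nhdsWithin_le_nhds (lt_mem_nhds hs)
    filter_upwards [h1, h2] with s' h3 h4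
    exact hgood s' h4.le h3
  have hmono : MonotoneOn (fun s : ℝ => ‖g ((s : ℂ) + I * y)‖ ^ 2) (Ici 0) := by
    refine monotoneOn_of_deriv_nonneg (convex_Ici 0)
      (fun s _ => (hder s).continuousAt.continuousWithinAt)
      (fun s _ => (hder s).differentiableAt.differentiableWithinAt) ?_
    intro s hs
    rw [interior_Ici] at hs
    rw [(hder s).deriv]
    exact hall s hs
  have h1 := hmono (show x ∈ Ici (0 : ℝ) from hx) (show X ∈ Ici (0 : ℝ) from hx.trans hX) hX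
  exact (pow_le_pow_iff_left₀ (norm_nonneg _) (norm_nonneg _) two_ne_zero).1 h1

/-- the general statement -/
theorem mono_gen {Y : ℂ → ℂ} (hY : Differentiable ℂ Y) (hne : ∃ u, Y u ≠ 0)
    (hsym : ∀ z, Y (-(conj z)) = conj (Y z)) (hgr : Gr Y)
    (hst : ∀ s, Y s = 0 → |s.re| ≤ 1 / 2) {x X y : ℝ} (hx : 0 ≤ x) (hX : x ≤ X)
    (h : ∀ b : ℂ, Y b = 0 → 2 * b.re ^ 2 ≤ X ^ 2 + 2 * (b.im - y) ^ 2) :
    ‖Y ((x : ℂ) + I * y)‖ ≤ ‖Y ((X : ℂ) + I * y)‖ := by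
  classical
  have hK : IsCompact (Icc (-(1 / 2) : ℝ) (1 / 2) ×ℂ Icc (y - 1) (y + 1)) :=
    isCompact_Icc.reProdIm isCompact_Icc
  have hfin := fin_zeros hY hne hK
  obtain ⟨B, hBd⟩ : ∃ B : Finset ℂ, B = hfin.toFinset := ⟨_, rfl⟩
  have hB : ∀ b, b ∈ B ↔ Y b = 0 ∧ |b.im - y| ≤ 1 := by
    intro b
    rw [hBd, Set.Finite.mem_toFinset]
    constructor
    · rintro ⟨⟨-, h2⟩, h3⟩
      refine ⟨h3, abs_le.2 ⟨?_, ?_⟩⟩
      · have := h2.1
        linarith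
      · have := h2.2
        linarith
    · rintro ⟨h1, h2⟩
      have h3 := abs_le.1 (hst b h1)
      have h4 := abs_le.1 h2
      exact ⟨⟨⟨by linarith [h3.1], by linarith [h3.2]⟩,
        ⟨by linarith [h4.1], by linarith [h4.2]⟩⟩, h1⟩
  obtain ⟨g, hg, hgB, hYg⟩ := Pool.Agent.W186.LH.fac B hY hne
  have hgne : ∀ s : ℝ, g ((s : ℂ) + I * y) ≠ 0 := by
    intro s
    by_cases hs : ((s : ℂ) + I * y) ∈ B
    · exact hgB _ hs
    · intro h0
      apply hs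
      rw [hB]
      refine ⟨by rw [hYg, h0, mul_zero], ?_⟩
      simp
  have hBs : ∀ b ∈ B, -(conj b) ∈ B := by
    intro b hb
    rw [hB] at hb ⊢
    rw [im_nc, hsym, hb.1, map_zero]
    exact ⟨rfl, hb.2⟩
  have hord : ∀ b ∈ B, analyticOrderNatAt Y (-(conj b)) = analyticOrderNatAt Y b := by
    intro b _
    unfold analyticOrderNatAt
    rw [Pool.Agent.NH13.UV.yh.order_rf hY hsym b]
  have h1 := poly_mono B hBs (analyticOrderNatAt Y) hord hx hX
    (fun b hb => h b ((hB b).1 hb).1)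
  have h2 := g_mono hg y B hgne (fun s hs hsB => re_ld hY hsym hgr hst B hB hg hYg hs hsB) hx hX
  rw [hYg, hYg, norm_mul, norm_mul]
  exact mul_le_mul h1 h2 (norm_nonneg _) (norm_nonneg _)

theorem mono : Pool.Agent.H466.HP.S_MONO := by
  intro x X y hx hX h
  have hst : ∀ s, Pool.Agent.H862.VK.Yz s = 0 → |s.re| ≤ 1 / 2 := by
    intro s hs
    by_contra hcon
    rw [not_le, lt_abs] at hcon
    rcases hcon with h1 | h1
    · exact Pool.Agent.H862.VK.Yz_ne h1.le hs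
    · refine Pool.Agent.H862.VK.Yz_ne (z := -s) ?_ ?_
      · rw [Complex.neg_re]
        exact h1.le
      · rw [Pool.Agent.H862.VK.Yz_neg]
        exact hs
  exact mono_gen Pool.Agent.H862.VK.Yz_diff ⟨1, Pool.Agent.H862.VK.Yz_ne (z := 1) (by norm_num)⟩
    Pool.Agent.H862.VK.Yz_sym Pool.Agent.H862.VK.Yz_gr hst hx hX h

end Pool.Agent.H333.HP
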